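import Mathlib
import Pool.Agent.H13R3.EM.Tw
import Pool.Agent.H446R3.EM.TaskEMA
import Pool.Agent.H886R3.TaskEMP

/-!
# MP_2a1a00_nt, Q1: the conjectured bound for twisted hybrid moments of error terms is false

For every `𝔏` in the Selberg class that satisfies the mean-square hypothesis of the problem there are
entire elements `F₁`, `F₂ = F₁ G` of the Selberg class, of integer degrees `d₁ < d₂`, for which
`∫_1^T E_{f₁}(x) E_{f₂}(x) |𝔏(1/2+ix)|² dx` is much larger than `T^(1+σ)`.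
-/

set_option autoImplicit false

namespace Pool.Agent.Results.MP_2a1a00_nt.TwistedMomentsFail

open Pool.Agent.H13R3.EM

/-- `∫_1^T |𝔏(1/2+it)|² dt = T P(log T) + O(T^(1-η))` for some polynomial `P ≠ 0` and some `η > 0`. -/
def MeanSquare (L : Sel) : Prop := ∃ (P : Polynomial ℝ) (η : ℝ), P ≠ 0 ∧ 0 < η ∧ ∃ C : ℝ, ∀ T : ℝ, 1 ≤ T →
    |(∫ x in (1:ℝ)..T, ‖L.G (1 / 2 + x * Complex.I) / (1 / 2 + x * Complex.I - 1) ^ L.m0‖ ^ 2) -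
      T * P.eval (Real.log T)| ≤ C * T ^ (1 - η)

/-- The bound of Q1 for all admissible `f_j`, with the fixed twist `𝔏`:
`∫_1^T ∏ E_{f_j}(x)^{ℓ_j} |𝔏(1/2+ix)|² dx ≪ T^(1 + σ - δ + ε)`, `σ = ∑ ℓ_j (d_j - 1) / (2 d_j)`. -/
def Q1For (L : Sel) : Prop := ∀ (k : ℕ) (d ℓ : Fin k → ℕ) (F : Fin k → Sel), 2 ≤ k → StrictMono d →
  (∀ j, 2 ≤ d j) → (∀ j, (F j).deg = (d j : ℝ)) → (∀ j, 1 ≤ ℓ j) → (∃ j, ℓ j = 1) →
  ∃ δ : ℝ, 0 < δ ∧ ∀ ε : ℝ, 0 < ε → ∃ C : ℝ, ∀ T : ℝ, 1 ≤ T →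
    ‖∫ x in (1:ℝ)..T, (∏ j, (F j).err x ^ ℓ j) *
        ((‖L.G (1 / 2 + x * Complex.I) / (1 / 2 + x * Complex.I - 1) ^ L.m0‖ ^ 2 : ℝ) : ℂ)‖ ≤
      C * T ^ (1 + ∑ j, (ℓ j : ℝ) * ((d j : ℝ) - 1) / (2 * (d j : ℝ)) - δ + ε)

/-- Q1 of the problem. -/
def Q1 : Prop := ∀ L : Sel, MeanSquare L → Q1For L

/-- Q1 is false, and the bound fails for every admissible twist. -/
theorem result : ¬ Q1 ∧ ∀ L : Sel, MeanSquare L → ¬ Q1For L := by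
  have key : ∀ L : Sel, MeanSquare L → ¬ Q1For L := by
    rintro L ⟨P, η, hP0, hη, hC⟩
    exact not_twistQ1 Pool.Agent.H446R3.EM.taskA Pool.Agent.H886R3.EMP.taskP L P η ⟨hP0, hη, hC⟩
  refine ⟨fun h => ?_, key⟩
  have h1 : MeanSquare oneSel := by
    obtain ⟨hP0, hη, hC⟩ := oneSel_meanSq
    exact ⟨1, 1, hP0, hη, hC⟩
  exact key oneSel h1 (h oneSel h1)

end Pool.Agent.Results.MP_2a1a00_nt.TwistedMomentsFail
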